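import Pool.Agent.Helper7.HL.Stmts

/-!
# Generating function of the complete homogeneous polynomials
-/

namespace Pool.Agent.Helper23.HL

open Finset MvPolynomial
open Pool.Agent.Helper7.HL Pool.Agent.Helper32.HG

theorem geom_mul {A : Type*} [CommRing A] (a : A) :
    (PowerSeries.mk fun m => a ^ m) * (1 - PowerSeries.C a * PowerSeries.X) = 1 := by
  have h : (PowerSeries.mk fun m => a ^ m) =
      1 + PowerSeries.C a * (PowerSeries.X * PowerSeries.mk fun m => a ^ m) := by
    ext m
    rw [map_add, PowerSeries.coeff_C_mul, PowerSeries.coeff_mk, PowerSeries.coeff_one]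
    cases m with
    | zero => simp
    | succ m =>
      rw [PowerSeries.coeff_succ_X_mul, PowerSeries.coeff_mk, if_neg (by omega), zero_add, pow_succ]
      ring
  have h2 : (PowerSeries.mk fun m => a ^ m) * (1 - PowerSeries.C a * PowerSeries.X) =
      (PowerSeries.mk fun m => a ^ m) -
        PowerSeries.C a * (PowerSeries.X * PowerSeries.mk fun m => a ^ m) := by ring
  rw [h2]
  nth_rewrite 1 [h]
  ring

theorem mk_hk_prod (k : ℕ) (S : Type) [CommRing S] :
    PowerSeries.mk (hk k S) =
      ∏ i : Fin k, PowerSeries.mk (fun m => (X i : MvPolynomial (Fin k) S) ^ m) := by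
  classical
  ext1 m
  rw [PowerSeries.coeff_mk, PowerSeries.coeff_prod]
  unfold hk
  refine Finset.sum_bij' (fun e _ => Finsupp.equivFunOnFinite.symm e)
    (fun e _ => Finsupp.equivFunOnFinite e) ?_ ?_ ?_ ?_ ?_
  · intro e he
    rw [mem_piAntidiag] at he
    rw [mem_finsuppAntidiag]
    refine ⟨?_, fun _ _ => mem_univ _⟩
    simpa using he.1
  · intro e he
    rw [mem_finsuppAntidiag] at he
    rw [mem_piAntidiag]
    exact ⟨by simpa using he.1, fun _ _ => mem_univ _⟩
  · intro e _
    simp
  · intro e _
    simp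
  · intro e _
    rw [monomial_eq, C_1, one_mul, Finsupp.prod_fintype]
    · apply Finset.prod_congr rfl
      intro i _
      rw [PowerSeries.coeff_mk]
    · intro i
      exact pow_zero _

theorem mk_hk_mul (k : ℕ) (S : Type) [CommRing S] :
    PowerSeries.mk (hk k S) * ∏ i : Fin k,
      (1 - PowerSeries.C (X i : MvPolynomial (Fin k) S) * PowerSeries.X) = 1 := by
  rw [mk_hk_prod, ← Finset.prod_mul_distrib]
  exact Finset.prod_eq_one fun i _ => geom_mul _

theorem mk_hk_mul_erase (k : ℕ) (S : Type) [CommRing S] (l : Fin k) :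
    PowerSeries.mk (hk k S) * ∏ i ∈ univ.erase l,
      (1 - PowerSeries.C (X i : MvPolynomial (Fin k) S) * PowerSeries.X) =
        PowerSeries.mk (fun m => (X l : MvPolynomial (Fin k) S) ^ m) := by
  rw [mk_hk_prod, ← Finset.mul_prod_erase univ _ (mem_univ l), mul_assoc,
    ← Finset.prod_mul_distrib, Finset.prod_eq_one fun i _ => geom_mul _, mul_one]

end Pool.Agent.Helper23.HL
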