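import Pool.Agent.Helper23.HL.LF
import Pool.Agent.Helper23.HL.Gen

/-!
# Haglund's conjecture for large `k`: row C2
-/

namespace Pool.Agent.Helper23.HL

open Finset MvPolynomial
open Pool.Agent.Helper7.HL Pool.Agent.Helper32.HG

section
variable {R : Type} [CommRing R]

theorem chi_one (k : ℕ) : chi (1 : R) k = 1 := by
  have h : ∀ i : Fin k, (C (C (1 : R)) * X i : MvPolynomial (Fin k) (Sy R)) = X i := by
    intro i
    rw [C_1, C_1, one_mul]
  unfold chi
  simp only [h]
  exact mk_hk_mul k (Sy R)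

theorem shf_one_X (k : ℕ) (m : ℕ) : shf (1 : R) k (X m) = C (X m) := by
  unfold shf sbt
  rw [aeval_X, chi_one, mul_one, PowerSeries.coeff_map]
  unfold Hs
  rw [PowerSeries.coeff_mk, hh, if_neg (by omega)]
  rfl

theorem shf_one (k : ℕ) (f : Sy R) : shf (1 : R) k f = C f := by
  induction f using MvPolynomial.induction_on with
  | C a =>
    have h : shf (1 : R) k (algebraMap R (Sy R) a) = algebraMap R (MvPolynomial (Fin k) (Sy R)) a :=
      AlgHom.commutes _ a
    exact h
  | add p q hp hq => rw [map_add, hp, hq, map_add]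
  | mul_X p m hp => rw [map_mul, hp, shf_one_X, map_mul]

theorem Bop_one (t : R) (k : ℕ) (f : Sy R) : Bop 1 t k f = f * Bop 1 t k 1 := by
  unfold Bop
  rw [shf_one, shf_one, C_1, mul_one, mul_comm, Lf_C_mul]

end

theorem st_C2 : ST_C2 := by
  intro R _ t N cs
  induction cs with
  | nil =>
    unfold fJ
    simp [Hc]
  | cons k cs ih =>
    rw [List.map_cons, List.prod_cons, ← ih]
    unfold fJ
    have h1 : Hc (1 : R) t (k :: cs) = Hc 1 t cs * Bop 1 t k 1 := Bop_one t k _
    have h2 : Hc (1 : R) t [k] = Bop 1 t k 1 := rfl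
    rw [h1, h2, map_mul, map_mul, mul_comm]

end Pool.Agent.Helper23.HL
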