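import Pool.Agent.Helper23.HL.Gen

/-!
# Haglund's conjecture for large `k`: rows EM and JT
-/

namespace Pool.Agent.Helper23.HL

open Finset MvPolynomial
open Pool.Agent.Helper7.HL Pool.Agent.Helper32.HG

section
variable {k : ℕ} {S : Type} [CommRing S]

theorem dl_rev (k : ℕ) (j : Fin k) : dl k j = (Fin.rev j).val := by
  unfold dl
  rw [Fin.val_rev]
  omega

theorem dl_stair (k : ℕ) (j : Fin k) : ((dl k j : ℕ) : ℤ) = stair k j := by
  unfold stair
  rw [dl_rev]

/-- the polynomial `prod_{m != l} (1 - z_m u)` -/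
noncomputable def epl (k : ℕ) (S : Type) [CommRing S] (l : Fin k) :
    Polynomial (MvPolynomial (Fin k) S) :=
  ∏ m ∈ univ.erase l, (1 - Polynomial.C (X m) * Polynomial.X)

theorem epl_degree (l : Fin k) (d : ℕ) (h : k ≤ d) : (epl k S l).coeff d = 0 := by
  apply Polynomial.coeff_eq_zero_of_natDegree_lt
  have h1 : (epl k S l).natDegree ≤ ∑ m ∈ univ.erase l,
      (1 - Polynomial.C (X m : MvPolynomial (Fin k) S) * Polynomial.X).natDegree :=
    Polynomial.natDegree_prod_le _ _
  have h2 : ∑ m ∈ univ.erase l,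
      (1 - Polynomial.C (X m : MvPolynomial (Fin k) S) * Polynomial.X).natDegree ≤
        ∑ m ∈ univ.erase l, 1 := by
    apply Finset.sum_le_sum
    intro m _
    refine (Polynomial.natDegree_sub_le _ _).trans ?_
    rw [Polynomial.natDegree_one]
    exact max_le (by omega) ((Polynomial.natDegree_C_mul_le _ _).trans Polynomial.natDegree_X_le)
  have h3 : ∑ m ∈ univ.erase l, 1 = k - 1 := by
    rw [Finset.sum_const, Finset.card_erase_of_mem (mem_univ l), Finset.card_univ,
      Fintype.card_fin, smul_eq_mul, mul_one]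
  have h4 := l.isLt
  omega

theorem epl_coe (l : Fin k) : (epl k S l : PowerSeries (MvPolynomial (Fin k) S)) =
    ∏ i ∈ univ.erase l,
      (1 - PowerSeries.C (X i : MvPolynomial (Fin k) S) * PowerSeries.X) := by
  unfold epl
  have h := map_prod (Polynomial.coeToPowerSeries.ringHom (R := MvPolynomial (Fin k) S))
    (fun m : Fin k => (1 - Polynomial.C (X m : MvPolynomial (Fin k) S) * Polynomial.X))
    (univ.erase l)
  rw [Polynomial.coeToPowerSeries.ringHom_apply] at h
  rw [h]
  apply Finset.prod_congr rfl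
  intro i _
  rw [Polynomial.coeToPowerSeries.ringHom_apply, Polynomial.coe_sub, Polynomial.coe_one,
    Polynomial.coe_mul, Polynomial.coe_C, Polynomial.coe_X]

theorem sum_fin_dl {M : Type*} [AddCommMonoid M] (g : ℕ → M) :
    ∑ j : Fin k, g (dl k j) = ∑ d ∈ range k, g d := by
  rw [Finset.sum_range]
  have h := Equiv.sum_comp Fin.revPerm (fun j : Fin k => g j.val)
  rw [← h]
  apply Finset.sum_congr rfl
  intro j _
  rw [dl_rev]
  rfl

theorem em1 (b : ℕ) (l : Fin k) :
    ∑ j, hz k S ((b : ℤ) - dl k j) * Emat k S j l = X l ^ b := by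
  have h1 : ∀ j, hz k S ((b : ℤ) - dl k j) * Emat k S j l =
      (fun d : ℕ => hz k S ((b : ℤ) - d) * (epl k S l).coeff d) (dl k j) := by
    intro j
    rfl
  rw [Finset.sum_congr rfl (fun j _ => h1 j),
    sum_fin_dl (k := k) (fun d : ℕ => hz k S ((b : ℤ) - d) * (epl k S l).coeff d)]
  have h2 := mk_hk_mul_erase k S l
  rw [← epl_coe] at h2
  have h3 := congrArg (PowerSeries.coeff b) h2
  rw [PowerSeries.coeff_mul, PowerSeries.coeff_mk] at h3
  rw [← h3]
  rw [← Finset.Nat.sum_antidiagonal_swap]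
  rw [Finset.Nat.sum_antidiagonal_eq_sum_range_succ_mk]
  have h4 : ∑ d ∈ range k, hz k S ((b : ℤ) - d) * (epl k S l).coeff d =
      ∑ d ∈ range (max k b.succ), hz k S ((b : ℤ) - d) * (epl k S l).coeff d := by
    apply Finset.sum_subset (Finset.range_subset_range.2 (le_max_left _ _))
    intro d _ hd
    rw [epl_degree l d (by simpa using hd), mul_zero]
  have h5 : ∑ d ∈ range b.succ, hz k S ((b : ℤ) - d) * (epl k S l).coeff d =
      ∑ d ∈ range (max k b.succ), hz k S ((b : ℤ) - d) * (epl k S l).coeff d := by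
    apply Finset.sum_subset (Finset.range_subset_range.2 (le_max_right _ _))
    intro d _ hd
    rw [mem_range] at hd
    rw [hz_neg (by omega), zero_mul]
  rw [h4, ← h5]
  apply Finset.sum_congr rfl
  intro d hd
  rw [mem_range] at hd
  have h6 : ((b : ℤ) - d) = ((b - d : ℕ) : ℤ) := by omega
  simp only [Prod.swap_prod_mk, PowerSeries.coeff_mk, Polynomial.coeff_coe]
  rw [h6]
  unfold hz
  rw [if_pos (by omega), Int.toNat_natCast]

theorem altp_det (β : Fin k → ℕ) :
    altp k S β = Matrix.det (Matrix.of fun i l : Fin k =>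
      (X l : MvPolynomial (Fin k) S) ^ (β i)) := by
  classical
  unfold altp
  rw [Matrix.det_apply']
  apply Finset.sum_congr rfl
  intro σ _
  rw [monomial_eq, Finsupp.prod_fintype _ _ (fun i => pow_zero _)]
  have h : (C ((Equiv.Perm.sign σ : ℤ) : S) : MvPolynomial (Fin k) S) =
      ((Equiv.Perm.sign σ : ℤ) : MvPolynomial (Fin k) S) := by
    rw [map_intCast]
  rw [h]
  rfl

theorem hmat_det : Matrix.det (Matrix.of fun i j : Fin k =>
    hz k S ((dl k i : ℤ) - dl k j)) = 1 := by
  rw [Matrix.det_of_isUpperTriangular]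
  · apply Finset.prod_eq_one
    intro i _
    rw [Matrix.of_apply, sub_self, hz_zero]
  · intro i j hij
    rw [Matrix.of_apply]
    apply hz_neg
    have h1 : j < i := hij
    have h2 := Fin.lt_def.1 h1
    unfold dl
    have := i.isLt
    omega

theorem sd_emat (β : Fin k → ℕ) :
    Matrix.det (Matrix.of fun i j : Fin k => hz k S ((β i : ℤ) - dl k j)) *
      Matrix.det (Emat k S) = altp k S β := by
  rw [← Matrix.det_mul, altp_det]
  congr 1
  ext1 i l
  rw [Matrix.mul_apply]
  simp only [Matrix.of_apply]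
  exact em1 (β i) l

theorem em2 : Matrix.det (Emat k S) = Dl k S := by
  have h := sd_emat (k := k) (S := S) (dl k)
  rw [hmat_det, one_mul] at h
  exact h

end

theorem st_EM : ST_EM := fun _ _ _ => ⟨em1, em2⟩

theorem st_JT : ST_JT := by
  intro k S _ β
  rw [← em2, mul_comm, ← sd_emat]
  congr 1
  unfold Sd
  congr 1
  ext1 i j
  simp only [Matrix.of_apply]
  rw [dl_stair]

end Pool.Agent.Helper23.HL
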