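import Pool.Agent.Helper7.HL.Stmts

/-!
# Haglund's conjecture for large `k`: row LF
-/

namespace Pool.Agent.Helper23.HL

open Finset MvPolynomial
open Pool.Agent.Helper7.HL Pool.Agent.Helper32.HG

section
variable {k : ℕ} {S : Type} [CommRing S]

theorem Lf_sub (φ : Fin k → ℕ → S) (p : MvPolynomial (Fin k) S) (s : Finset (Fin k →₀ ℕ))
    (h : p.support ⊆ s) : Lf φ p = ∑ l ∈ s, coeff l p * ∏ j, φ j (l j) := by
  unfold Lf
  apply Finset.sum_subset h
  intro x _ hx
  rw [notMem_support_iff.1 hx, zero_mul]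

theorem Lf_add (φ : Fin k → ℕ → S) (p p' : MvPolynomial (Fin k) S) :
    Lf φ (p + p') = Lf φ p + Lf φ p' := by
  classical
  rw [Lf_sub φ (p + p') (p.support ∪ p'.support) support_add,
    Lf_sub φ p (p.support ∪ p'.support) subset_union_left,
    Lf_sub φ p' (p.support ∪ p'.support) subset_union_right, ← Finset.sum_add_distrib]
  apply Finset.sum_congr rfl
  intro x _
  rw [coeff_add, add_mul]

theorem Lf_zero (φ : Fin k → ℕ → S) : Lf φ (0 : MvPolynomial (Fin k) S) = 0 := by
  unfold Lf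
  simp

theorem Lf_C_mul (φ : Fin k → ℕ → S) (a : S) (p : MvPolynomial (Fin k) S) :
    Lf φ (C a * p) = a * Lf φ p := by
  classical
  have h : (C a * p).support ⊆ p.support := by
    intro x hx
    rw [mem_support_iff, coeff_C_mul] at hx
    rw [mem_support_iff]
    intro h0
    apply hx
    rw [h0, mul_zero]
  rw [Lf_sub φ _ _ h, Lf, Finset.mul_sum]
  apply Finset.sum_congr rfl
  intro x _
  rw [coeff_C_mul, mul_assoc]

theorem Lf_monomial (φ : Fin k → ℕ → S) (l : Fin k → ℕ) (a : S) :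
    Lf φ (monomial (ex l) a) = a * ∏ j, φ j (l j) := by
  classical
  rw [Lf_sub φ _ {ex l} support_monomial_subset, Finset.sum_singleton, coeff_monomial, if_pos rfl]
  rfl

theorem Lf_sum (φ : Fin k → ℕ → S) {ι : Type*} (s : Finset ι)
    (f : ι → MvPolynomial (Fin k) S) : Lf φ (∑ i ∈ s, f i) = ∑ i ∈ s, Lf φ (f i) := by
  classical
  induction s using Finset.induction_on with
  | empty => simp [Lf_zero]
  | insert a s ha ih => rw [Finset.sum_insert ha, Finset.sum_insert ha, Lf_add, ih]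

theorem Lf_altp (φ : Fin k → ℕ → S) (l : Fin k → ℕ) :
    Lf φ (altp k S l) = Matrix.det (Matrix.of fun i j => φ j (l i)) := by
  unfold altp
  rw [Lf_sum, Matrix.det_apply']
  apply Finset.sum_congr rfl
  intro σ _
  rw [Lf_monomial]
  rfl

end

theorem st_LF : ST_LF := fun _ _ _ φ =>
  ⟨Lf_add φ, Lf_C_mul φ, Lf_monomial φ, Lf_altp φ⟩

end Pool.Agent.Helper23.HL
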